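import Mathlib
import Pool.Agent.W795.DD.Stm2

set_option autoImplicit false

/-! Task DD-GAL: Galilean transformation of admissible solutions. -/

open MeasureTheory Set
open scoped ContDiff

namespace Pool.Agent.W52.DD.Gal

open H459R3.NS (V K3 Per pd)
open Pool.Agent.W785.DF (IsAdmissible)
open Pool.Agent.W795.DD

theorem pd_shift (j : Fin 3) (f : V → ℝ) (a : V) (x : V) :
    pd j (fun y => f (y - a)) x = pd j f (x - a) := by
  unfold pd
  have h : fderiv ℝ (fun y => f (y - a)) x = fderiv ℝ f (x - a) := by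
    have := fderiv_comp_add_right (𝕜 := ℝ) (f := f) (x := x) (-a)
    simpa [sub_eq_add_neg] using this
  rw [h]

theorem pd_shift_add (j : Fin 3) (f : V → ℝ) (a : V) (b : ℝ) (x : V) :
    pd j (fun y => f (y - a) + b) x = pd j f (x - a) := by
  rw [← pd_shift j f a x]
  unfold pd
  rw [fderiv_add_const]

theorem time (F : ℝ × V → ℝ) (hF : ContDiffOn ℝ ∞ F (Ici 0 ×ˢ univ)) (t : ℝ) (ht : 0 ≤ t)
    (x c : V) :
    derivWithin (fun s => F (s, x - s • c)) (Ici 0) t =
      derivWithin (fun s => F (s, x - t • c)) (Ici 0) t -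
        ∑ j, c j * pd j (fun y => F (t, y)) (x - t • c) := by
  have hmem : (t, x - t • c) ∈ (Ici (0 : ℝ) ×ˢ (univ : Set V)) := ⟨ht, mem_univ _⟩
  have hd : HasFDerivWithinAt F (fderivWithin ℝ F (Ici 0 ×ˢ univ) (t, x - t • c))
      (Ici 0 ×ˢ univ) (t, x - t • c) :=
    ((hF.differentiableOn (by simp)) _ hmem).hasFDerivWithinAt
  set F' := fderivWithin ℝ F (Ici 0 ×ˢ univ) (t, x - t • c) with hF'
  have hu : UniqueDiffWithinAt ℝ (Ici (0 : ℝ)) t := uniqueDiffOn_Ici 0 t ht
  have h1 : HasDerivWithinAt (fun s => F (s, x - s • c)) (F' (1, -c)) (Ici 0) t := by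
    have hc : HasDerivWithinAt (fun s : ℝ => (s, x - s • c)) ((1 : ℝ), -c) (Ici 0) t := by
      refine (hasDerivWithinAt_id t (Ici 0)).prodMk ?_
      have h2 := ((hasDerivWithinAt_id t (Ici 0)).smul_const c).const_sub x
      simpa using h2
    exact HasFDerivWithinAt.comp_hasDerivWithinAt t hd hc (fun s hs => ⟨hs, mem_univ _⟩)
  have h2 : HasDerivWithinAt (fun s => F (s, x - t • c)) (F' (1, 0)) (Ici 0) t := by
    have hc : HasDerivWithinAt (fun s : ℝ => (s, x - t • c)) ((1 : ℝ), (0 : V)) (Ici 0) t :=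
      (hasDerivWithinAt_id t (Ici 0)).prodMk (hasDerivWithinAt_const t (Ici 0) _)
    exact HasFDerivWithinAt.comp_hasDerivWithinAt t hd hc (fun s hs => ⟨hs, mem_univ _⟩)
  have h3 : ∀ j, pd j (fun y => F (t, y)) (x - t • c) = F' (0, Pi.single j 1) := by
    intro j
    have hc : HasFDerivWithinAt (fun y : V => (t, y)) (ContinuousLinearMap.inr ℝ ℝ V) univ
        (x - t • c) := (hasFDerivAt_prodMk_right t (x - t • c)).hasFDerivWithinAt
    have h4 : HasFDerivWithinAt (fun y => F (t, y)) (F'.comp (ContinuousLinearMap.inr ℝ ℝ V)) univ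
        (x - t • c) := hd.comp (x - t • c) hc (fun y _ => ⟨ht, mem_univ _⟩)
    rw [hasFDerivWithinAt_univ] at h4
    unfold pd
    rw [h4.fderiv]
    rfl
  rw [h1.derivWithin hu, h2.derivWithin hu, Finset.sum_congr rfl fun j _ => by rw [h3 j]]
  have h5 : ((1 : ℝ), -c) = (1, 0) - ∑ j, c j • ((0 : ℝ), (Pi.single j 1 : V)) := by
    have h6 : ∑ j, c j • ((0 : ℝ), (Pi.single j 1 : V)) = (0, c) := by
      ext i
      · rw [Prod.fst_sum]
        simp
      · rw [Prod.snd_sum, Finset.sum_apply]
        simp [Pi.single_apply]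
    rw [h6]
    simp
  rw [h5, map_sub, map_sum]
  congr 1
  refine Finset.sum_congr rfl fun j _ => ?_
  rw [map_smul, smul_eq_mul]

theorem proof : S_gal := by
  intro ν v0 u p c h
  have hmap : ContDiff ℝ ∞ (fun z : ℝ × V => (z.1, z.2 - z.1 • c)) := by fun_prop
  have hmaps : MapsTo (fun z : ℝ × V => (z.1, z.2 - z.1 • c)) (Ici 0 ×ˢ univ)
      (Ici 0 ×ˢ univ) := fun z hz => ⟨hz.1, mem_univ _⟩
  refine ⟨?_, ?_, ?_, ?_, ?_, ?_, ?_⟩
  · exact (h.smooth_u.comp hmap.contDiffOn hmaps).add contDiffOn_const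
  · exact h.smooth_p.comp hmap.contDiffOn hmaps
  · intro t ht i x
    have h1 := h.per_u t ht i (x - t • c)
    have h2 : x + Pi.single i 1 - t • c = x - t • c + Pi.single i 1 := by abel
    simp only [h2, h1]
  · intro t ht i x
    have h1 := h.per_p t ht i (x - t • c)
    have h2 : x + Pi.single i 1 - t • c = x - t • c + Pi.single i 1 := by abel
    simp only [h2, h1]
  · intro t ht x i
    have hm := h.momentum t ht (x - t • c) i
    have hsi : ContDiffOn ℝ ∞ (fun z : ℝ × V => u z.1 z.2 i) (Ici 0 ×ˢ univ) :=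
      contDiffOn_pi.1 h.smooth_u i
    have h1 : derivWithin (fun s => (u s (x - s • c) + c) i) (Ici 0) t =
        derivWithin (fun s => u s (x - t • c) i) (Ici 0) t -
          ∑ j, c j * pd j (fun y => u t y i) (x - t • c) := by
      rw [← time (fun z => u z.1 z.2 i) hsi t ht x c]
      have h2 : (fun s => (u s (x - s • c) + c) i) = fun s => u s (x - s • c) i + c i := rfl
      rw [h2]
      exact derivWithin_add_const (c i)
    have h2 : ∀ j x, pd j (fun y => (u t (y - t • c) + c) i) x =
        pd j (fun y => u t y i) (x - t • c) :=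
      fun j x => pd_shift_add j (fun y => u t y i) (t • c) (c i) x
    have h3 : ∀ j, pd j (pd j fun y => (u t (y - t • c) + c) i) x =
        pd j (pd j fun y => u t y i) (x - t • c) := by
      intro j
      have h4 : (pd j fun y => (u t (y - t • c) + c) i) =
          fun x => (pd j fun y => u t y i) (x - t • c) := funext fun x => h2 j x
      rw [h4]
      exact pd_shift j _ (t • c) x
    have h4 : pd i (fun x => p t (x - t • c)) x = pd i (p t) (x - t • c) :=
      pd_shift i (p t) (t • c) x
    have h5 : ∑ j, (u t (x - t • c) + c) j * pd j (fun y => (u t (y - t • c) + c) i) x =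
        ∑ j, u t (x - t • c) j * pd j (fun y => u t y i) (x - t • c) +
          ∑ j, c j * pd j (fun y => u t y i) (x - t • c) := by
      rw [← Finset.sum_add_distrib]
      refine Finset.sum_congr rfl fun j _ => ?_
      rw [h2 j x, Pi.add_apply]
      ring
    have h6 : ∑ j, pd j (pd j fun y => (u t (y - t • c) + c) i) x =
        ∑ j, pd j (pd j fun y => u t y i) (x - t • c) :=
      Finset.sum_congr rfl fun j _ => h3 j
    rw [h1, h5, h6, h4]
    linarith [hm]
  · intro t ht x
    rw [← h.divfree t ht (x - t • c)]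
    exact Finset.sum_congr rfl fun i _ => pd_shift_add i (fun y => u t y i) (t • c) (c i) x
  · funext x
    have := congrFun h.initial x
    simp only [zero_smul, sub_zero, this]

end Pool.Agent.W52.DD.Gal
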