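import Mathlib
import Pool.Agent.W795.DD.Stm2
import Pool.Agent.H459R3.NS.Four

set_option autoImplicit false

/-! Task DD-SYN-3: spatial calculus of Fourier series with rapidly decreasing coefficients. -/

open MeasureTheory Set
open scoped ContDiff

namespace Pool.Agent.W52.DD.Syn3

open H459R3.NS (V K3 Per pd ph ee ee_per ee_add_left norm_ee)
open Pool.Agent.W795.DD

/-- rapid decay -/
def Rd (γ : K3 → ℂ) : Prop :=
  ∀ m : ℕ, ∃ C : ℝ, ∀ k, (1 + Pool.Agent.W785.DF.sq k) ^ m * ‖γ k‖ ≤ C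

theorem sq_nn (k : K3) : 0 ≤ Pool.Agent.W785.DF.sq k := by
  unfold Pool.Agent.W785.DF.sq
  positivity

theorem coord_le (k : K3) (j : Fin 3) : (k j : ℝ) ^ 2 ≤ Pool.Agent.W785.DF.sq k := by
  unfold Pool.Agent.W785.DF.sq
  exact Finset.single_le_sum (f := fun j => (k j : ℝ) ^ 2) (fun i _ => by positivity)
    (Finset.mem_univ j)

theorem abs_coord_le (k : K3) (j : Fin 3) : |(k j : ℝ)| ≤ 1 + Pool.Agent.W785.DF.sq k := by
  have h := coord_le k j
  rw [← sq_abs] at h
  nlinarith [abs_nonneg (k j : ℝ), sq_nonneg (|(k j : ℝ)| - 1)]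

theorem ph_le (k : K3) (y : V) : |ph k y| ≤ 3 * (1 + Pool.Agent.W785.DF.sq k) * ‖y‖ := by
  unfold ph
  refine (Finset.abs_sum_le_sum_abs _ _).trans ?_
  have h : ∀ j ∈ (Finset.univ : Finset (Fin 3)), |(k j : ℝ) * y j| ≤
      (1 + Pool.Agent.W785.DF.sq k) * ‖y‖ := by
    intro j _
    rw [abs_mul]
    have h1 : |y j| ≤ ‖y‖ := norm_le_pi_norm y j
    exact mul_le_mul (abs_coord_le k j) h1 (abs_nonneg _) (by have := sq_nn k; linarith)
  refine (Finset.sum_le_sum h).trans (le_of_eq ?_)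
  rw [Finset.sum_const, Finset.card_univ, Fintype.card_fin]
  simp
  ring

/-- coordinates -/
def eqv : K3 ≃ ℤ × ℤ × ℤ where
  toFun k := (k 0, k 1, k 2)
  invFun p := ![p.1, p.2.1, p.2.2]
  left_inv k := by funext i; fin_cases i <;> rfl
  right_inv p := rfl

theorem summable_int : Summable fun n : ℤ => 1 / (1 + (n : ℝ) ^ 2) := by
  have h : Summable fun n : ℤ => |(n : ℝ)| ^ (-2 : ℝ) := Real.summable_abs_int_rpow (by norm_num)
  have h2 := h.add (summable_of_finite_support (f := fun n : ℤ => if n = 0 then (1 : ℝ) else 0)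
    ((Set.finite_singleton (0 : ℤ)).subset fun n hn => by
      by_contra h
      exact hn (if_neg h)))
  refine Summable.of_nonneg_of_le (fun n => by positivity) (fun n => ?_) h2
  by_cases hn : n = 0
  · subst hn; simp
  · rw [if_neg hn, add_zero]
    have hn' : (n : ℝ) ≠ 0 := by exact_mod_cast hn
    rw [Real.rpow_neg (abs_nonneg _), ← one_div, show (2 : ℝ) = ((2 : ℕ) : ℝ) by norm_num,
      Real.rpow_natCast, sq_abs]
    apply one_div_le_one_div_of_le (by positivity)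
    linarith

theorem summable_K3 : Summable fun k : K3 =>
    (1 / (1 + (k 0 : ℝ) ^ 2)) * ((1 / (1 + (k 1 : ℝ) ^ 2)) * (1 / (1 + (k 2 : ℝ) ^ 2))) := by
  have h1 := summable_int.mul_of_nonneg summable_int (fun n => by positivity)
    (fun n => by positivity)
  have h2 := summable_int.mul_of_nonneg h1 (fun n => by positivity)
    (fun p => by positivity)
  have h3 := (eqv.summable_iff (f := fun p : ℤ × ℤ × ℤ =>
    (1 / (1 + (p.1 : ℝ) ^ 2)) * ((1 / (1 + (p.2.1 : ℝ) ^ 2)) * (1 / (1 + (p.2.2 : ℝ) ^ 2))))).2 h2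
  exact h3

theorem Rd.summable_norm {γ : K3 → ℂ} (h : Rd γ) : Summable fun k => ‖γ k‖ := by
  obtain ⟨C, hC⟩ := h 3
  refine Summable.of_nonneg_of_le (fun k => norm_nonneg _) (fun k => ?_) (summable_K3.mul_left C)
  have h0 := coord_le k 0
  have h1 := coord_le k 1
  have h2 := coord_le k 2
  have hs := sq_nn k
  have hp : (1 + (k 0 : ℝ) ^ 2) * ((1 + (k 1 : ℝ) ^ 2) * (1 + (k 2 : ℝ) ^ 2)) ≤
      (1 + Pool.Agent.W785.DF.sq k) ^ 3 := by
    have e : (1 + Pool.Agent.W785.DF.sq k) ^ 3 = (1 + Pool.Agent.W785.DF.sq k) *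
      ((1 + Pool.Agent.W785.DF.sq k) * (1 + Pool.Agent.W785.DF.sq k)) := by ring
    rw [e]
    gcongr
  have h3 : (1 / (1 + (k 0 : ℝ) ^ 2)) * ((1 / (1 + (k 1 : ℝ) ^ 2)) * (1 / (1 + (k 2 : ℝ) ^ 2))) =
      1 / ((1 + (k 0 : ℝ) ^ 2) * ((1 + (k 1 : ℝ) ^ 2) * (1 + (k 2 : ℝ) ^ 2))) := by
    rw [one_div_mul_one_div, one_div_mul_one_div]
  rw [h3, mul_one_div, le_div_iff₀ (by positivity)]
  refine le_trans ?_ (hC k)
  rw [mul_comm]
  exact mul_le_mul_of_nonneg_right hp (norm_nonneg _)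

theorem Rd.mul {γ : K3 → ℂ} (h : Rd γ) (μ : K3 → ℂ) (A : ℝ) (hA : 0 ≤ A)
    (hμ : ∀ k, ‖μ k‖ ≤ A * (1 + Pool.Agent.W785.DF.sq k)) : Rd fun k => μ k * γ k := by
  intro m
  obtain ⟨C, hC⟩ := h (m + 1)
  refine ⟨A * C, fun k => ?_⟩
  have hs := sq_nn k
  calc (1 + Pool.Agent.W785.DF.sq k) ^ m * ‖μ k * γ k‖
      = (1 + Pool.Agent.W785.DF.sq k) ^ m * (‖μ k‖ * ‖γ k‖) := by rw [norm_mul]
    _ ≤ (1 + Pool.Agent.W785.DF.sq k) ^ m *
        ((A * (1 + Pool.Agent.W785.DF.sq k)) * ‖γ k‖) := by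
        gcongr
        exact hμ k
    _ = A * ((1 + Pool.Agent.W785.DF.sq k) ^ (m + 1) * ‖γ k‖) := by ring
    _ ≤ A * C := by
        gcongr
        exact hC k

/-- the linear form `k · y` -/
noncomputable def LL (k : K3) : V →L[ℝ] ℝ :=
  ∑ i, (k i : ℝ) • (ContinuousLinearMap.proj i : V →L[ℝ] ℝ)

theorem LL_apply (k : K3) (y : V) : LL k y = ph k y := by
  unfold LL ph
  rw [ContinuousLinearMap.sum_apply]
  rfl

/-- the derivative of `ee k` -/
noncomputable def DD (k : K3) (x : V) : V →L[ℝ] ℂ :=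
  ee k x • ((2 * Real.pi * Complex.I) • (Complex.ofRealCLM.comp (LL k)))

theorem DD_apply (k : K3) (x y : V) :
    DD k x y = 2 * Real.pi * Complex.I * (ph k y : ℂ) * ee k x := by
  unfold DD
  rw [ContinuousLinearMap.smul_apply, ContinuousLinearMap.smul_apply,
    ContinuousLinearMap.comp_apply, LL_apply, smul_eq_mul, smul_eq_mul,
    Complex.ofRealCLM_apply]
  ring

theorem hasFDerivAt_ph (k : K3) (x : V) : HasFDerivAt (ph k) (LL k) x := by
  unfold ph LL
  refine HasFDerivAt.fun_sum fun i _ => ?_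
  exact ((ContinuousLinearMap.proj (R := ℝ) (φ := fun _ : Fin 3 => ℝ) i).hasFDerivAt
    (x := x)).const_mul (k i : ℝ)

theorem hasFDerivAt_ee (k : K3) (x : V) : HasFDerivAt (ee k) (DD k x) x := by
  have h1 : HasFDerivAt (fun y => (ph k y : ℂ)) (Complex.ofRealCLM.comp (LL k)) x :=
    Complex.ofRealCLM.hasFDerivAt.comp x (hasFDerivAt_ph k x)
  exact (h1.const_mul (2 * Real.pi * Complex.I)).cexp

theorem norm_two_pi_I : ‖(2 * Real.pi * Complex.I : ℂ)‖ = 2 * Real.pi := by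
  rw [norm_mul, norm_mul, Complex.norm_I, Complex.norm_real, Real.norm_eq_abs,
    abs_of_pos Real.pi_pos]
  simp

theorem norm_mult (k : K3) (y : V) : ‖(2 * Real.pi * Complex.I * (ph k y : ℂ) : ℂ)‖ ≤
    6 * Real.pi * ‖y‖ * (1 + Pool.Agent.W785.DF.sq k) := by
  rw [norm_mul, norm_two_pi_I, Complex.norm_real, Real.norm_eq_abs]
  have h := ph_le k y
  have hp := Real.pi_pos
  nlinarith [mul_le_mul_of_nonneg_left h (by positivity : (0 : ℝ) ≤ 2 * Real.pi)]

theorem DD_norm (k : K3) (x : V) : ‖DD k x‖ ≤ 6 * Real.pi * (1 + Pool.Agent.W785.DF.sq k) := by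
  have hs := sq_nn k
  have hp := Real.pi_pos
  refine ContinuousLinearMap.opNorm_le_bound _ (by positivity) fun y => ?_
  rw [DD_apply, norm_mul, norm_ee, mul_one]
  refine (norm_mult k y).trans (le_of_eq ?_)
  ring

theorem Rd.summable_weight {γ : K3 → ℂ} (h : Rd γ) :
    Summable fun k => ‖γ k‖ * (6 * Real.pi * (1 + Pool.Agent.W785.DF.sq k)) := by
  have h1 := (h.mul (fun k => ((1 + Pool.Agent.W785.DF.sq k : ℝ) : ℂ)) 1 zero_le_one
    (fun k => by
      have hs := sq_nn k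
      rw [Complex.norm_real, Real.norm_eq_abs, abs_of_nonneg (by positivity), one_mul])
    ).summable_norm.mul_left (6 * Real.pi)
  refine h1.congr fun k => ?_
  have hs := sq_nn k
  rw [norm_mul, Complex.norm_real, Real.norm_eq_abs, abs_of_nonneg (by positivity)]
  ring

theorem norm_term (γ : K3 → ℂ) (k : K3) (x : V) : ‖γ k * ee k x‖ = ‖γ k‖ := by
  rw [norm_mul, norm_ee, mul_one]

theorem Rd.summable {γ : K3 → ℂ} (h : Rd γ) (x : V) : Summable fun k => γ k * ee k x := by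
  refine Summable.of_norm ?_
  exact h.summable_norm.congr fun k => (norm_term γ k x).symm

theorem hasFDerivAt_FS {γ : K3 → ℂ} (h : Rd γ) (x : V) :
    HasFDerivAt (FS γ) (∑' k, γ k • DD k x) x := by
  refine hasFDerivAt_tsum (u := fun k => ‖γ k‖ * (6 * Real.pi * (1 + Pool.Agent.W785.DF.sq k)))
    h.summable_weight (f' := fun k x => γ k • DD k x) (fun k y => ?_) (fun k y => ?_)
    (h.summable 0) x
  · exact (hasFDerivAt_ee k y).const_mul (γ k)
  · rw [norm_smul]
    exact mul_le_mul_of_nonneg_left (DD_norm k y) (norm_nonneg _)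

theorem fderiv_FS {γ : K3 → ℂ} (h : Rd γ) (x y : V) :
    fderiv ℝ (FS γ) x y = FS (fun k => 2 * Real.pi * Complex.I * (ph k y : ℂ) * γ k) x := by
  rw [(hasFDerivAt_FS h x).fderiv]
  have hsum : Summable fun k => γ k • DD k x := by
    refine Summable.of_norm_bounded h.summable_weight fun k => ?_
    rw [norm_smul]
    exact mul_le_mul_of_nonneg_left (DD_norm k x) (norm_nonneg _)
  have h1 := (ContinuousLinearMap.apply ℝ ℂ y).map_tsum hsum
  rw [ContinuousLinearMap.apply_apply] at h1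
  rw [h1]
  unfold FS
  refine tsum_congr fun k => ?_
  rw [ContinuousLinearMap.apply_apply, ContinuousLinearMap.smul_apply, DD_apply, smul_eq_mul]
  ring

theorem Rd.deriv {γ : K3 → ℂ} (h : Rd γ) (y : V) :
    Rd fun k => 2 * Real.pi * Complex.I * (ph k y : ℂ) * γ k :=
  h.mul _ (6 * Real.pi * ‖y‖) (by have := Real.pi_pos; positivity) fun k => norm_mult k y

theorem contDiff_nat (n : ℕ) : ∀ γ : K3 → ℂ, Rd γ → ContDiff ℝ n (FS γ) := by
  induction n with
  | zero =>
    intro γ h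
    rw [Nat.cast_zero, contDiff_zero]
    exact continuous_iff_continuousAt.2 fun x => (hasFDerivAt_FS h x).continuousAt
  | succ n ih =>
    intro γ h
    have e : ((n + 1 : ℕ) : WithTop ℕ∞) = (n : WithTop ℕ∞) + 1 := by push_cast; rfl
    rw [e, contDiff_succ_iff_fderiv_apply]
    refine ⟨fun x => (hasFDerivAt_FS h x).differentiableAt, fun hn => ?_, fun y => ?_⟩
    · exact absurd hn (by simp)
    · have h1 : (fun x => fderiv ℝ (FS γ) x y) =
          FS (fun k => 2 * Real.pi * Complex.I * (ph k y : ℂ) * γ k) :=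
        funext fun x => fderiv_FS h x y
      rw [h1]
      exact ih _ (h.deriv y)

theorem ph_single (k : K3) (j : Fin 3) : ph k (Pi.single j 1) = k j := by
  simp [ph, Pi.single_apply]

/-- the shear `(l, k) ↦ (l, k - l)` -/
def shear : K3 × K3 ≃ K3 × K3 where
  toFun p := (p.1, p.2 - p.1)
  invFun p := (p.1, p.1 + p.2)
  left_inv p := by ext <;> simp
  right_inv p := by ext <;> simp

theorem conv {γ δ : K3 → ℂ} (hγ : Rd γ) (hδ : Rd δ) (x : V) :
    FS γ x * FS δ x = FS (fun k => ∑' l : K3, γ l * δ (k - l)) x := by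
  unfold FS
  have n1 : Summable fun k => ‖γ k * ee k x‖ :=
    hγ.summable_norm.congr fun k => (norm_term γ k x).symm
  have n2 : Summable fun k => ‖δ k * ee k x‖ :=
    hδ.summable_norm.congr fun k => (norm_term δ k x).symm
  have hS := summable_mul_of_summable_norm n1 n2
  rw [tsum_mul_tsum_of_summable_norm n1 n2, ← shear.tsum_eq]
  have hS' : Summable fun p : K3 × K3 => γ p.1 * ee p.1 x * (δ (p.2 - p.1) * ee (p.2 - p.1) x) :=
    (shear.summable_iff).2 hS
  have hterm : ∀ p : K3 × K3, γ p.1 * ee p.1 x * (δ (p.2 - p.1) * ee (p.2 - p.1) x) =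
      γ p.1 * δ (p.2 - p.1) * ee p.2 x := by
    intro p
    have h1 : ee p.2 x = ee p.1 x * ee (p.2 - p.1) x := by
      rw [← ee_add_left]
      congr 1
      abel
    rw [h1]
    ring
  change ∑' p : K3 × K3, γ p.1 * ee p.1 x * (δ (p.2 - p.1) * ee (p.2 - p.1) x) = _
  rw [tsum_congr hterm]
  have hS2 : Summable fun p : K3 × K3 => γ p.1 * δ (p.2 - p.1) * ee p.2 x :=
    hS'.congr hterm
  have hS3 : Summable fun p : K3 × K3 => γ p.2 * δ (p.1 - p.2) * ee p.1 x :=
    ((Equiv.prodComm K3 K3).summable_iff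
      (f := fun p : K3 × K3 => γ p.1 * δ (p.2 - p.1) * ee p.2 x)).2 hS2
  rw [← (Equiv.prodComm K3 K3).tsum_eq
    (fun p : K3 × K3 => γ p.1 * δ (p.2 - p.1) * ee p.2 x)]
  change ∑' p : K3 × K3, γ p.2 * δ (p.1 - p.2) * ee p.1 x = _
  rw [hS3.tsum_prod]
  refine tsum_congr fun k => ?_
  rw [← tsum_mul_right]

theorem proof : S_syn3 := by
  intro γ h
  have hγ : Rd γ := h
  refine ⟨hγ.summable, ?_, ?_, ?_, ?_⟩
  · rw [contDiff_infty]
    exact fun n => contDiff_nat n γ hγ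
  · intro i x
    unfold FS
    refine tsum_congr fun k => ?_
    rw [ee_per k i x]
  · intro j x
    unfold pd
    rw [fderiv_FS hγ x (Pi.single j 1)]
    unfold FS
    refine tsum_congr fun k => ?_
    change 2 * Real.pi * Complex.I * ((ph k (Pi.single j 1) : ℝ) : ℂ) * γ k * ee k x =
      2 * Real.pi * Complex.I * (k j : ℂ) * γ k * ee k x
    rw [ph_single, Complex.ofReal_intCast]
  · intro δ hδ x
    exact conv hγ hδ x

end Pool.Agent.W52.DD.Syn3
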